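import Pool.Agent.H170R2.PC.Asym

/-!
The sums-differences inequality with four slices (exponent `7/4`) and the bound for windows.
-/

set_option autoImplicit false

open Finset Filter Topology

namespace Pool.Agent.H419R3.KT

open Pool.Agent.H170R2.PC

/-- Four slices: if `|A|, |B|, |C|, |D| ≤ n`, `G ⊆ A × B`, `g.1 + g.2 ∈ C`, `g.1 + 2 g.2 ∈ D` and
the differences of the pairs of `G` are distinct then `|G|^4 ≤ n^7`. -/
theorem katz_tao_four {A B C D : Finset ℤ} {G : Finset (ℤ × ℤ)} {n : ℕ} (hA : A.card ≤ n)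
    (hB : B.card ≤ n) (hC : C.card ≤ n) (hD : D.card ≤ n) (hG : G ⊆ A ×ˢ B)
    (hs : ∀ g ∈ G, g.1 + g.2 ∈ C) (ht : ∀ g ∈ G, g.1 + 2 * g.2 ∈ D)
    (hd : ∀ g ∈ G, ∀ g' ∈ G, g.1 - g.2 = g'.1 - g'.2 → g = g') :
    G.card ^ 4 ≤ n ^ 7 := by
  set V : Finset (ℤ × ℤ × ℤ) := (A ×ˢ (B ×ˢ B)).filter fun v => (v.1, v.2.1) ∈ G ∧ (v.1, v.2.2) ∈ G
    with hV
  have hVm : ∀ v ∈ V, v.1 ∈ A ∧ v.2.1 ∈ B ∧ v.2.2 ∈ B ∧ (v.1, v.2.1) ∈ G ∧ (v.1, v.2.2) ∈ G := by
    intro v hv
    rw [hV, mem_filter, mem_product, mem_product] at hv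
    exact ⟨hv.1.1, hv.1.2.1, hv.1.2.2, hv.2.1, hv.2.2⟩
  have hVc : G.card ^ 2 ≤ n * V.card := by
    have h1 := sq_card_le_fiber' G (fun g => g.1) A (fun g hg => (mem_product.mp (hG hg)).1)
    refine h1.trans (Nat.mul_le_mul hA ?_)
    refine card_le_card_of_injOn (fun x => (x.1.1, x.1.2, x.2.2)) ?_ ?_
    · rintro ⟨⟨a, b⟩, ⟨a', b'⟩⟩ hx
      rw [mem_coe, mem_filter, mem_product] at hx
      obtain ⟨⟨hg, hg'⟩, heq⟩ := hx
      change (a, b) ∈ G at hg
      change (a', b') ∈ G at hg'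
      have heq' : a = a' := heq
      subst heq'
      have e1 := mem_product.mp (hG hg)
      have e2 := mem_product.mp (hG hg')
      simp only [mem_coe, hV, mem_filter, mem_product]
      exact ⟨⟨e1.1, e1.2, e2.2⟩, hg, hg'⟩
    · rintro ⟨⟨a, b⟩, ⟨a', b'⟩⟩ hx ⟨⟨c, d⟩, ⟨c', d'⟩⟩ hy h
      rw [mem_coe, mem_filter] at hx hy
      simp only [Prod.mk.injEq] at h hx hy ⊢
      obtain ⟨h1, h2, h3⟩ := h
      exact ⟨⟨h1, h2⟩, by rw [← hx.2, h1, hy.2], h3⟩
  -- pairs with the same sums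
  set Q := (V ×ˢ V).filter fun x : (ℤ × ℤ × ℤ) × (ℤ × ℤ × ℤ) =>
    (x.1.1 + x.1.2.1, x.1.1 + x.1.2.2) = (x.2.1 + x.2.2.1, x.2.1 + x.2.2.2) with hQ
  have hQl : V.card ^ 2 ≤ (n * n) * Q.card := by
    have h1 := sq_card_le_fiber' V (fun v => (v.1 + v.2.1, v.1 + v.2.2)) (C ×ˢ C)
      (fun v hv => mem_product.mpr ⟨hs _ (hVm v hv).2.2.2.1, hs _ (hVm v hv).2.2.2.2⟩)
    refine h1.trans (Nat.mul_le_mul_right _ ?_)
    rw [card_product]
    exact Nat.mul_le_mul hC hC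
  have hQu : Q.card ≤ n * (n * n) := by
    have h1 : Q.card ≤ (D ×ˢ (B ×ˢ B)).card := by
      refine card_le_card_of_injOn (fun x => (x.1.1 + 2 * x.1.2.1, x.2.2.1, x.1.2.2)) ?_ ?_
      · rintro ⟨v₀, v₁⟩ hx
        simp only [hQ, mem_coe, mem_filter, mem_product] at hx ⊢
        exact ⟨ht _ (hVm _ hx.1.1).2.2.2.1, (hVm _ hx.1.2).2.1, (hVm _ hx.1.1).2.2.1⟩
      · rintro ⟨⟨a₀, b₀, b₀'⟩, ⟨a₁, b₁, b₁'⟩⟩ hx ⟨⟨c₀, d₀, d₀'⟩, ⟨c₁, d₁, d₁'⟩⟩ hy h
        simp only [hQ, mem_coe, mem_filter, mem_product, Prod.mk.injEq] at hx hy h ⊢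
        obtain ⟨⟨-, hx3⟩, x1, x2⟩ := hx
        obtain ⟨⟨-, hy3⟩, y1, y2⟩ := hy
        obtain ⟨h1, h2, h3⟩ := h
        have g1 := (hVm _ hx3).2.2.2.2
        have g2 := (hVm _ hy3).2.2.2.2
        have hdd := hd _ g1 _ g2 (by dsimp only; linarith)
        simp only [Prod.mk.injEq] at hdd
        refine ⟨⟨?_, ?_, ?_⟩, ?_, ?_, ?_⟩ <;> linarith [hdd.1, hdd.2]
    refine h1.trans ?_
    rw [card_product, card_product]
    exact Nat.mul_le_mul hD (Nat.mul_le_mul hB hB)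
  have hV2 : V.card ^ 2 ≤ n ^ 5 := by
    calc V.card ^ 2 ≤ (n * n) * Q.card := hQl
      _ ≤ (n * n) * (n * (n * n)) := Nat.mul_le_mul_left _ hQu
      _ = n ^ 5 := by ring
  calc G.card ^ 4 = (G.card ^ 2) ^ 2 := by ring
    _ ≤ (n * V.card) ^ 2 := Nat.pow_le_pow_left hVc 2
    _ = n ^ 2 * V.card ^ 2 := by ring
    _ ≤ n ^ 2 * n ^ 5 := Nat.mul_le_mul_left _ hV2
    _ = _ := by ring

theorem window4 {D : Finset ℕ} {a : (p : ℕ) → ZMod p} {Y N J : ℕ}
    (hD : ∀ p ∈ D, p.Prime ∧ Y ≤ p ∧ p ≤ 2 * Y) (hJ : 0 < J) (hN : J * (14 * Y) ≤ N) :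
    J ^ 7 * D.card ^ 4 ≤ (Cov D a N).card ^ 7 := by
  classical
  set S := Cov D a N with hS
  set s : ℕ → Finset ℕ := fun j => S.filter fun n => j * (14 * Y) < n ∧ n ≤ (j + 1) * (14 * Y) with hs
  -- the windows are disjoint
  have hdisj : ∑ j ∈ range J, (s j).card ≤ S.card := by
    rw [← card_biUnion]
    · refine card_le_card ?_
      intro n hn
      rw [mem_biUnion] at hn
      obtain ⟨j, _, hj⟩ := hn
      exact (mem_filter.mp hj).1
    · intro i _ j _ hij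
      change Disjoint (s i) (s j)
      rw [disjoint_left]
      intro n hn hn'
      have h1 := (mem_filter.mp hn).2
      have h2 := (mem_filter.mp hn').2
      rcases lt_or_gt_of_ne hij with h | h
      · have : (i + 1) * (14 * Y) ≤ j * (14 * Y) := Nat.mul_le_mul_right _ h
        omega
      · have : (j + 1) * (14 * Y) ≤ i * (14 * Y) := Nat.mul_le_mul_right _ h
        omega
  -- the four slices in each window
  have hkt : ∀ j ∈ range J, D.card ^ 4 ≤ (s j).card ^ 7 := by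
    intro j hj
    rw [mem_range] at hj
    have hex : ∀ p : ℕ, ∃ x : ℕ, p ∈ D → j * (14 * Y) < x ∧ x ≤ j * (14 * Y) + p ∧
        (x : ZMod p) = a p := by
      intro p
      by_cases hp : p ∈ D
      · obtain ⟨x, hx⟩ := exists_residue (hD p hp).1.pos (a p) (j * (14 * Y))
        exact ⟨x, fun _ => hx⟩
      · exact ⟨0, fun h => absurd h hp⟩
    choose x hx using hex
    have hmem : ∀ p ∈ D, ∀ i ≤ 6, x p + i * p ∈ s j := by
      intro p hp i hi
      obtain ⟨h1, h2, h3⟩ := hx p hp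
      have h4 := (hD p hp).2.2
      have h5 : (j + 1) * (14 * Y) = j * (14 * Y) + 14 * Y := by ring
      have h6 : (j + 1) * (14 * Y) ≤ J * (14 * Y) := Nat.mul_le_mul_right _ hj
      have h7 : i * p ≤ 6 * p := Nat.mul_le_mul_right _ hi
      simp only [hs, hS, Cov, mem_filter, mem_Icc]
      refine ⟨⟨⟨by omega, by omega⟩, p, hp, ?_⟩, by omega, by omega⟩
      push_cast
      rw [CharP.cast_eq_zero (ZMod p) p, mul_zero, add_zero, h3]
    set A : Finset ℤ := (s j).map ⟨fun n : ℕ => (n : ℤ), Nat.cast_injective⟩ with hA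
    set C : Finset ℤ := (s j).image fun n : ℕ => 2 * (n : ℤ) with hC
    set E : Finset ℤ := (s j).image fun n : ℕ => 3 * (n : ℤ) with hE
    set G : Finset (ℤ × ℤ) := D.image fun p : ℕ => ((x p : ℤ) + 6 * p, (x p : ℤ)) with hG
    have hGc : G.card = D.card := by
      rw [hG]
      refine card_image_of_injOn ?_
      intro p _ q _ h
      simp only [Prod.mk.injEq] at h
      omega
    have hAc : A.card ≤ (s j).card := by rw [hA, card_map]
    rw [← hGc]
    refine katz_tao_four (A := A) (B := A) (C := C) (D := E) hAc hAc card_image_le card_image_le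
      ?_ ?_ ?_ ?_
    · intro g hg
      rw [hG, mem_image] at hg
      obtain ⟨p, hp, rfl⟩ := hg
      have h0 := hmem p hp 0 (by omega)
      have h2 := hmem p hp 6 le_rfl
      rw [mem_product]
      constructor
      · rw [hA, Finset.mem_map]
        exact ⟨x p + 6 * p, h2, by simp⟩
      · rw [hA, Finset.mem_map]
        exact ⟨x p, by simpa using h0, rfl⟩
    · intro g hg
      rw [hG, mem_image] at hg
      obtain ⟨p, hp, rfl⟩ := hg
      have h1 := hmem p hp 3 (by omega)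
      rw [hC, mem_image]
      refine ⟨x p + 3 * p, h1, ?_⟩
      push_cast
      ring
    · intro g hg
      rw [hG, mem_image] at hg
      obtain ⟨p, hp, rfl⟩ := hg
      have h1 := hmem p hp 2 (by omega)
      rw [hE, mem_image]
      refine ⟨x p + 2 * p, h1, ?_⟩
      push_cast
      ring
    · intro g hg g' hg' h
      rw [hG, mem_image] at hg hg'
      obtain ⟨p, hp, rfl⟩ := hg
      obtain ⟨q, hq, rfl⟩ := hg'
      have : p = q := by
        dsimp only at h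
        omega
      rw [this]
  obtain ⟨j, hj, hmin⟩ := exists_min_image (range J) (fun j => (s j).card)
    ⟨0, mem_range.mpr hJ⟩
  have h1 : J * (s j).card ≤ S.card := by
    refine le_trans ?_ hdisj
    have := card_nsmul_le_sum (range J) (fun j => (s j).card) (s j).card fun i hi => hmin i hi
    rwa [card_range, smul_eq_mul] at this
  calc J ^ 7 * D.card ^ 4 ≤ J ^ 7 * (s j).card ^ 7 := Nat.mul_le_mul_left _ (hkt j hj)
    _ = (J * (s j).card) ^ 7 := by ring
    _ ≤ S.card ^ 7 := Nat.pow_le_pow_left h1 7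

/-- the exponent from windows with four slices -/
theorem exp_window4 {α : ℝ} (hα : 0 < α) (hα1 : α < 1) : LowerExponent α (1 - 3 * α / 7) := by
  intro ε hε
  set η : ℝ := min (ε / 4) (1 / 2) with hη
  have hη0 : 0 < η := lt_min (by linarith) (by norm_num)
  have hη1 : η ≤ 1 / 2 := min_le_right _ _
  have hηε : 4 * η ≤ ε := by
    have := min_le_left (ε / 4) (1 / 2 : ℝ)
    linarith
  have hev : ∀ᶠ N : ℕ in atTop, ∀ a : (p : ℕ) → ZMod p,
      (N : ℝ) ^ (1 - 3 * α / 7 - ε) ≤ (coveredCount α N a : ℝ) := by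
    filter_upwards [ev_card hα hα1.le hη0 (by linarith), ev_div hα hα1 hη0 14 (by norm_num),
      eventually_gt_atTop 1] with N h1 h2 hN1 a
    have hN0 : (0 : ℝ) < N := by exact_mod_cast (by omega : 0 < N)
    have hN1' : (1 : ℝ) < N := by exact_mod_cast hN1
    rw [coveredCount_eq]
    set Y := ⌈(N : ℝ) ^ α⌉₊ with hY
    set J := N / (14 * Y) - 1 with hJ
    have hJ0 : 0 < J := by
      have : (0 : ℝ) < (J : ℝ) := lt_of_lt_of_le (Real.rpow_pos_of_pos hN0 _) h2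
      exact_mod_cast this
    have hJN : J * (14 * Y) ≤ N := by
      refine le_trans (Nat.mul_le_mul_right _ (Nat.sub_le _ _)) ?_
      exact Nat.div_mul_le_self _ _
    have hw := window4 (a := a) (PD_prop (α := α) (N := N)) hJ0 hJN
    set s := (Cov (PD α N) a N).card with hs
    have hw' : (J : ℝ) ^ 7 * ((PD α N).card : ℝ) ^ 4 ≤ (s : ℝ) ^ 7 := by exact_mod_cast hw
    refine le_of_pow_le_pow_left₀ (n := 7) (by norm_num) (by positivity) ?_
    have e1 : ((N : ℝ) ^ (1 - α - η)) ^ 7 * ((N : ℝ) ^ (α - η)) ^ 4 ≤ (s : ℝ) ^ 7 := by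
      refine le_trans ?_ hw'
      gcongr
    have e2 : ((N : ℝ) ^ (1 - α - η)) ^ 7 * ((N : ℝ) ^ (α - η)) ^ 4
        = (N : ℝ) ^ (7 - 3 * α - 11 * η) := by
      rw [← Real.rpow_mul_natCast hN0.le, ← Real.rpow_mul_natCast hN0.le, ← Real.rpow_add hN0]
      congr 1
      push_cast
      ring
    rw [e2] at e1
    refine le_trans ?_ e1
    rw [← Real.rpow_mul_natCast hN0.le]
    refine Real.rpow_le_rpow_of_exponent_le hN1'.le ?_
    push_cast
    linarith
  obtain ⟨N₀, hN₀⟩ := eventually_atTop.mp hev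
  exact ⟨N₀, fun N hN a => hN₀ N hN a⟩

end Pool.Agent.H419R3.KT
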