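import Pool.Agent.H419R3.KT.Four

/-!
Progression bounds and residue classes: the general reduction.
-/

set_option autoImplicit false

open Finset Filter Topology

namespace Pool.Agent.H419R3.KT

open Pool.Agent.H170R2.PC

/-- A set `T` that contains for every `p` of the set `D` a progression
`x, x + p, …, x + k p` of difference `p` satisfies `|D| ≤ C |T| ^ β`. -/
def ProgressionBound (k : ℕ) (C β : ℝ) : Prop :=
  ∀ (T D : Finset ℕ) (x : ℕ → ℕ), (∀ p ∈ D, ∀ i ≤ k, x p + i * p ∈ T) →
    (D.card : ℝ) ≤ C * (T.card : ℝ) ^ β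

theorem progressionBound_six : ProgressionBound 6 1 (7 / 4) := by
  classical
  intro T D x hx
  set A : Finset ℤ := T.map ⟨fun n : ℕ => (n : ℤ), Nat.cast_injective⟩ with hA
  set C : Finset ℤ := T.image fun n : ℕ => 2 * (n : ℤ) with hC
  set E : Finset ℤ := T.image fun n : ℕ => 3 * (n : ℤ) with hE
  set G : Finset (ℤ × ℤ) := D.image fun p : ℕ => ((x p : ℤ) + 6 * p, (x p : ℤ)) with hG
  have hGc : G.card = D.card := by
    rw [hG]
    refine card_image_of_injOn ?_
    intro p _ q _ h
    simp only [Prod.mk.injEq] at h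
    omega
  have hAc : A.card ≤ T.card := by rw [hA, card_map]
  have key : D.card ^ 4 ≤ T.card ^ 7 := by
    rw [← hGc]
    refine katz_tao_four (A := A) (B := A) (C := C) (D := E) hAc hAc card_image_le card_image_le
      ?_ ?_ ?_ ?_
    · intro g hg
      rw [hG, mem_image] at hg
      obtain ⟨p, hp, rfl⟩ := hg
      have h0 := hx p hp 0 (by omega)
      have h2 := hx p hp 6 le_rfl
      rw [mem_product]
      constructor
      · rw [hA, Finset.mem_map]
        exact ⟨x p + 6 * p, h2, by simp⟩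
      · rw [hA, Finset.mem_map]
        exact ⟨x p, by simpa using h0, rfl⟩
    · intro g hg
      rw [hG, mem_image] at hg
      obtain ⟨p, hp, rfl⟩ := hg
      have h1 := hx p hp 3 (by omega)
      rw [hC, mem_image]
      refine ⟨x p + 3 * p, h1, ?_⟩
      push_cast
      ring
    · intro g hg
      rw [hG, mem_image] at hg
      obtain ⟨p, hp, rfl⟩ := hg
      have h1 := hx p hp 2 (by omega)
      rw [hE, mem_image]
      refine ⟨x p + 2 * p, h1, ?_⟩
      push_cast
      ring
    · intro g hg g' hg' h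
      rw [hG, mem_image] at hg hg'
      obtain ⟨p, hp, rfl⟩ := hg
      obtain ⟨q, hq, rfl⟩ := hg'
      have : p = q := by
        dsimp only at h
        omega
      rw [this]
  have key' : (D.card : ℝ) ^ 4 ≤ (T.card : ℝ) ^ 7 := by exact_mod_cast key
  rw [one_mul]
  refine le_of_pow_le_pow_left₀ (n := 4) (by norm_num) (by positivity) ?_
  refine key'.trans (le_of_eq ?_)
  rw [← Real.rpow_mul_natCast (Nat.cast_nonneg _), ← Real.rpow_natCast]
  norm_num

/-- windows -/
theorem window_gen {k : ℕ} {C β : ℝ} (hβ : 0 ≤ β) (hPB : ProgressionBound k C β)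
    {D : Finset ℕ} {a : (p : ℕ) → ZMod p} {Y N J : ℕ}
    (hD : ∀ p ∈ D, p.Prime ∧ Y ≤ p ∧ p ≤ 2 * Y) (hJ : 0 < J) (hN : J * ((2 * (k + 1)) * Y) ≤ N) :
    (J : ℝ) ^ β * D.card ≤ C * ((Cov D a N).card : ℝ) ^ β := by
  classical
  set W := (2 * (k + 1)) * Y with hW
  set S := Cov D a N with hS
  set s : ℕ → Finset ℕ := fun j => S.filter fun n => j * W < n ∧ n ≤ (j + 1) * W with hs
  have hdisj : ∑ j ∈ range J, (s j).card ≤ S.card := by
    rw [← card_biUnion]
    · refine card_le_card ?_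
      intro n hn
      rw [mem_biUnion] at hn
      obtain ⟨j, _, hj⟩ := hn
      exact (mem_filter.mp hj).1
    · intro i _ j _ hij
      change Disjoint (s i) (s j)
      rw [disjoint_left]
      intro n hn hn'
      have h1 := (mem_filter.mp hn).2
      have h2 := (mem_filter.mp hn').2
      rcases lt_or_gt_of_ne hij with h | h
      · have : (i + 1) * W ≤ j * W := Nat.mul_le_mul_right _ h
        omega
      · have : (j + 1) * W ≤ i * W := Nat.mul_le_mul_right _ h
        omega
  have hkt : ∀ j ∈ range J, (D.card : ℝ) ≤ C * ((s j).card : ℝ) ^ β := by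
    intro j hj
    rw [mem_range] at hj
    have hex : ∀ p : ℕ, ∃ x : ℕ, p ∈ D → j * W < x ∧ x ≤ j * W + p ∧
        (x : ZMod p) = a p := by
      intro p
      by_cases hp : p ∈ D
      · obtain ⟨x, hx⟩ := exists_residue (hD p hp).1.pos (a p) (j * W)
        exact ⟨x, fun _ => hx⟩
      · exact ⟨0, fun h => absurd h hp⟩
    choose x hx using hex
    refine hPB (s j) D x ?_
    intro p hp i hi
    obtain ⟨h1, h2, h3⟩ := hx p hp
    have h4 := (hD p hp).2.2
    have h5 : (j + 1) * W = j * W + W := by ring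
    have h6 : (j + 1) * W ≤ J * W := Nat.mul_le_mul_right _ hj
    have h7 : (i + 1) * p ≤ (k + 1) * p := Nat.mul_le_mul_right _ (by omega)
    have h8 : (k + 1) * p ≤ (k + 1) * (2 * Y) := Nat.mul_le_mul_left _ h4
    have h9 : (k + 1) * (2 * Y) = W := by rw [hW]; ring
    have h10 : (i + 1) * p = i * p + p := by ring
    simp only [hs, hS, Cov, mem_filter, mem_Icc]
    refine ⟨⟨⟨by omega, by omega⟩, p, hp, ?_⟩, by omega, by omega⟩
    push_cast
    rw [CharP.cast_eq_zero (ZMod p) p, mul_zero, add_zero, h3]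
  obtain ⟨j, hj, hmin⟩ := exists_min_image (range J) (fun j => (s j).card)
    ⟨0, mem_range.mpr hJ⟩
  have h1 : J * (s j).card ≤ S.card := by
    refine le_trans ?_ hdisj
    have := card_nsmul_le_sum (range J) (fun j => (s j).card) (s j).card fun i hi => hmin i hi
    rwa [card_range, smul_eq_mul] at this
  have h1' : (J : ℝ) * (s j).card ≤ S.card := by exact_mod_cast h1
  have hJβ : 0 ≤ (J : ℝ) ^ β := Real.rpow_nonneg (Nat.cast_nonneg _) _
  have h2 := mul_le_mul_of_nonneg_left (hkt j hj) hJβ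
  rcases le_or_gt 0 C with hC | hC
  · calc (J : ℝ) ^ β * D.card ≤ (J : ℝ) ^ β * (C * ((s j).card : ℝ) ^ β) := h2
      _ = C * ((J : ℝ) * (s j).card) ^ β := by
          rw [Real.mul_rpow (Nat.cast_nonneg _) (Nat.cast_nonneg _)]
          ring
      _ ≤ C * (S.card : ℝ) ^ β :=
          mul_le_mul_of_nonneg_left (Real.rpow_le_rpow (by positivity) h1' hβ) hC
  · -- a negative constant is impossible
    exfalso
    have h3 := hPB {0} ∅ (fun _ => 0) (by simp)
    simp at h3
    linarith

/-- A progression bound with exponent `β` gives the exponent `1 - α + α / β`. -/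
theorem exp_gen {k : ℕ} {C β : ℝ} (hβ : 1 ≤ β) (hPB : ProgressionBound k C β)
    {α : ℝ} (hα : 0 < α) (hα1 : α < 1) : LowerExponent α (1 - α + α / β) := by
  intro ε hε
  have hβ0 : 0 < β := by linarith
  set η : ℝ := min (ε / 4) (1 / 2) with hη
  have hη0 : 0 < η := lt_min (by linarith) (by norm_num)
  have hη1 : η ≤ 1 / 2 := min_le_right _ _
  have hηε : 4 * η ≤ ε := by
    have := min_le_left (ε / 4) (1 / 2 : ℝ)
    linarith
  have hev : ∀ᶠ N : ℕ in atTop, ∀ a : (p : ℕ) → ZMod p,
      (N : ℝ) ^ (1 - α + α / β - ε) ≤ (coveredCount α N a : ℝ) := by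
    filter_upwards [ev_card hα hα1.le hη0 (by linarith),
      ev_div hα hα1 hη0 (2 * (k + 1)) (by positivity), ev_const C hη0,
      eventually_gt_atTop 1] with N h1 h2 h3 hN1 a
    have hN0 : (0 : ℝ) < N := by exact_mod_cast (by omega : 0 < N)
    have hN1' : (1 : ℝ) < N := by exact_mod_cast hN1
    rw [coveredCount_eq]
    set Y := ⌈(N : ℝ) ^ α⌉₊ with hY
    set J := N / ((2 * (k + 1)) * Y) - 1 with hJ
    have hJ0 : 0 < J := by
      have : (0 : ℝ) < (J : ℝ) := lt_of_lt_of_le (Real.rpow_pos_of_pos hN0 _) h2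
      exact_mod_cast this
    have hJN : J * ((2 * (k + 1)) * Y) ≤ N := by
      refine le_trans (Nat.mul_le_mul_right _ (Nat.sub_le _ _)) ?_
      exact Nat.div_mul_le_self _ _
    have hw := window_gen (a := a) hβ0.le hPB (PD_prop (α := α) (N := N)) hJ0 hJN
    set s := (Cov (PD α N) a N).card with hs
    have hs0 : (0 : ℝ) ≤ s := Nat.cast_nonneg _
    have e1 : ((N : ℝ) ^ (1 - α - η)) ^ β * (N : ℝ) ^ (α - η) ≤ (N : ℝ) ^ η * (s : ℝ) ^ β := by
      refine le_trans ?_ (hw.trans (mul_le_mul_of_nonneg_right h3 (Real.rpow_nonneg hs0 _)))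
      exact mul_le_mul (Real.rpow_le_rpow (Real.rpow_nonneg hN0.le _) h2 hβ0.le) h1
        (Real.rpow_nonneg hN0.le _) (Real.rpow_nonneg (Nat.cast_nonneg _) _)
    have e2 : ((N : ℝ) ^ (1 - α - η)) ^ β * (N : ℝ) ^ (α - η)
        = (N : ℝ) ^ η * ((N : ℝ) ^ (1 - α + α / β - η - 2 * η / β)) ^ β := by
      rw [← Real.rpow_mul hN0.le, ← Real.rpow_mul hN0.le, ← Real.rpow_add hN0,
        ← Real.rpow_add hN0]
      congr 1
      field_simp
      ring
    rw [e2] at e1
    have e3 := le_of_mul_le_mul_left e1 (Real.rpow_pos_of_pos hN0 _)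
    have e4 : (N : ℝ) ^ (1 - α + α / β - η - 2 * η / β) ≤ s :=
      (Real.rpow_le_rpow_iff (Real.rpow_nonneg hN0.le _) hs0 hβ0).1 e3
    refine le_trans ?_ e4
    refine Real.rpow_le_rpow_of_exponent_le hN1'.le ?_
    have e5 : 2 * η / β ≤ 2 * η := div_le_self (by linarith) hβ
    linarith
  obtain ⟨N₀, hN₀⟩ := eventually_atTop.mp hev
  exact ⟨N₀, fun N hN a => hN₀ N hN a⟩

/-- progression bounds with exponents arbitrarily close to `1` give the exponent `1` -/
theorem exp_all (h : ∀ ε : ℝ, 0 < ε → ∃ (k : ℕ) (C : ℝ), ProgressionBound k C (1 + ε))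
    {α : ℝ} (hα : 0 < α) (hα1 : α < 1) : LowerExponent α 1 := by
  intro ε hε
  obtain ⟨k, C, hk⟩ := h (ε / 2) (by linarith)
  obtain ⟨N₀, hN₀⟩ := exp_gen (β := 1 + ε / 2) (by linarith) hk hα hα1 (ε / 2) (by linarith)
  refine ⟨max N₀ 1, fun N hN a => ?_⟩
  have h1 := hN₀ N ((le_max_left _ _).trans hN) a
  refine le_trans ?_ h1
  have hN1 : (1 : ℝ) ≤ N := by exact_mod_cast (le_max_right _ _).trans hN
  refine Real.rpow_le_rpow_of_exponent_le hN1 ?_
  have h2 : α - α / (1 + ε / 2) ≤ ε / 2 := by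
    have h3 : (0 : ℝ) < 1 + ε / 2 := by linarith
    have e : α - α / (1 + ε / 2) = α * (ε / 2) / (1 + ε / 2) := by
      field_simp
      ring
    rw [e, div_le_iff₀ h3]
    nlinarith
  linarith

end Pool.Agent.H419R3.KT
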